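import Mathlib

/-!
# Integers that stay large under the 3x+1 map: definitions and module statements

Blueprint: `Paper.md` in this folder.
-/

set_option autoImplicit false

namespace Pool.Agent.Lib.MP_0a5adf_nt.EXP

open Finset

/-- The 3x+1 map on the integers. -/
def T (x : ℤ) : ℤ := if x % 2 = 0 then x / 2 else (3 * x + 1) / 2

/-- the number of ones of a word -/
def ones {k : ℕ} (w : Fin k → Bool) : ℕ := ∑ t, (w t).toNat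

/-- the number of ones at positions `< n` -/
def pre {k : ℕ} (w : Fin k → Bool) (n : ℕ) : ℕ := ∑ t : Fin k, if (t : ℕ) < n then (w t).toNat else 0

/-- the number of ones at positions `≥ n` -/
def suf {k : ℕ} (w : Fin k → Bool) (n : ℕ) : ℕ := ∑ t : Fin k, if (t : ℕ) < n then 0 else (w t).toNat

/-- `r(w) = ∑ over the ones at t of 2 ^ t * 3 ^ (ones after t)` -/
def rr {k : ℕ} (w : Fin k → Bool) : ℤ :=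
  ∑ t : Fin k, ((w t).toNat : ℤ) * (2 ^ (t : ℕ) * 3 ^ (suf w ((t : ℕ) + 1)))

/-- the parity word of length `k` of `x` -/
def wd (k : ℕ) (x : ℤ) : Fin k → Bool := fun t => decide (T^[(t : ℕ)] x % 2 ≠ 0)

/-- the `X` with `0 ≤ X < 2 ^ Q` and `3 ^ J * X + r ≡ 0 mod 2 ^ Q` -/
noncomputable def sol (J Q : ℕ) (r : ℤ) : ℤ :=
  (((-(r : ZMod (2 ^ Q))) * ((3 : ZMod (2 ^ Q)) ^ J)⁻¹).val : ℤ)

/-- `(3 ^ J * X + r) / 2 ^ Q` for `X = sol J Q r` -/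
noncomputable def zeta (J Q : ℕ) (r : ℤ) : ℤ := (3 ^ J * sol J Q r + r) / 2 ^ Q

/-- the weight of a word under the product measure with parameters `α` -/
def wt {k : ℕ} (α : Fin k → ℝ) (w : Fin k → Bool) : ℝ := ∏ t, (if w t then α t else 1 - α t)

/-- quadruples -/
def quad {W : Type} (C : Finset W) : Finset (W × W × W × W) := C ×ˢ C ×ˢ C ×ˢ C

/-- WORDS -/
def WordsStatement : Prop :=
  (∀ (k : ℕ) (x : ℤ), 2 ^ k * T^[k] x = 3 ^ ones (wd k x) * x + rr (wd k x)) ∧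
  (∀ (k : ℕ) (b : Bool) (w : Fin k → Bool),
    rr (Fin.cons b w : Fin (k + 1) → Bool) = (b.toNat : ℤ) * 3 ^ ones w + 2 * rr w) ∧
  (∀ (k : ℕ) (w : Fin k → Bool), 0 ≤ rr w ∧ rr w < 3 ^ k ∧ ones w ≤ k) ∧
  (∀ (k n : ℕ) (w : Fin k → Bool), pre w n + suf w n = ones w)

/-- SOL -/
def SolStatement : Prop :=
  ∀ (J Q : ℕ) (r : ℤ), 0 ≤ sol J Q r ∧ sol J Q r < 2 ^ Q ∧
    2 ^ Q * zeta J Q r = 3 ^ J * sol J Q r + r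

/-- The four times `m, 2m, 3m, 4m`. -/
def S (m c : ℕ) : Set ℤ :=
  {x : ℤ | |x| ≤ 2 ^ (3 * m + c) ∧ ∀ i : ℕ, 1 ≤ i → i ≤ 4 → 2 ^ (3 * m) ≤ 2 ^ c * |T^[i * m] x|}

/-- The block words of `x`. -/
def bw (m : ℕ) (x : ℤ) (i : ℕ) : Fin m → Bool := wd m (T^[i * m] x)

/-- HEIGHT: (1.1) of the paper. -/
def HeightStatement : Prop :=
  ∀ c : ℕ, ∃ m0 : ℕ, ∀ m ≥ m0, ∀ x ∈ S m c, ∀ i < 4,
    2 ^ ((i + 1) * m) ≤ 2 ^ (2 * c + 1) * 3 ^ (∑ l ∈ range (i + 1), ones (bw m x l))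

/-- DECOMP: (2.1), (2.2) of the paper. -/
def DecompStatement : Prop :=
  ∀ (m c : ℕ) (x : ℤ) (J0 J1 J2 j3 : ℕ), |x| ≤ 2 ^ (3 * m + c) → J0 = ones (bw m x 0) →
    J1 = J0 + ones (bw m x 1) → J2 = J1 + ones (bw m x 2) → j3 = ones (bw m x 3) →
    ∃ κ : ℤ, |κ| ≤ 3 + 2 ^ c ∧
      x = sol J0 (3 * m) (rr (bw m x 0)) + 2 ^ m * sol J1 (2 * m) (rr (bw m x 1))
        + 2 ^ (2 * m) * sol J2 m (rr (bw m x 2)) - κ * 2 ^ (3 * m) ∧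
      (2 : ℤ) ^ m ∣ 3 ^ (j3 + (J2 - J0)) * zeta J0 (3 * m) (rr (bw m x 0))
        + 3 ^ (j3 + (J2 - J1)) * zeta J1 (2 * m) (rr (bw m x 1))
        + 3 ^ j3 * zeta J2 m (rr (bw m x 2)) + rr (bw m x 3) - κ * 3 ^ (j3 + J2)

/-- CS: section 3 of the paper. -/
def CsStatement : Prop :=
  ∀ (W G : Type) [DecidableEq W] [AddCommGroup G] [DecidableEq G] (C : Fin 4 → Finset W)
    (f : Fin 4 → W → G) (g : G),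
    (#{q ∈ C 0 ×ˢ C 1 ×ˢ C 2 ×ˢ C 3 | f 0 q.1 + f 1 q.2.1 + f 2 q.2.2.1 + f 3 q.2.2.2 = g}) ^ 4 ≤
      ∏ i, #{q ∈ quad (C i) | f i q.1 + f i q.2.1 = f i q.2.2.1 + f i q.2.2.2}

/-- RIDOUT: (4.1) of the paper. -/
def RidoutStatement : Prop :=
  ∀ (c : ℕ) (ε : ℝ), 0 < ε → ∃ m0 : ℕ, ∀ m ≥ m0, ∀ i < 3, ∀ J : ℕ, J ≤ (i + 1) * m →
    2 ^ ((i + 1) * m) ≤ 2 ^ c * 3 ^ J → ∀ u v : ℤ, |u| ≤ 2 ^ ((3 - i) * m + 2) → v ≠ 0 →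
      (2 : ℤ) ^ ((4 - i) * m) ∣ 3 ^ J * u + v → (2 : ℝ) ^ ((1 - ε) * m) ≤ |(v : ℝ)|

/-- ENERGY: (5.1) of the paper. -/
def EnergyStatement : Prop :=
  ∀ (c : ℕ) (ε : ℝ), 0 < ε → ∃ m0 : ℕ, ∀ m ≥ m0, ∀ i < 3, ∀ J : ℕ, J ≤ (i + 1) * m →
    2 ^ ((i + 1) * m) ≤ 2 ^ c * 3 ^ J → ∀ (C : Finset (Fin m → Bool)) (R T : ℝ), 2 ^ m ≤ R →
      (∀ w ∈ C, (rr w : ℝ) ≤ R) →
      (∀ v : ℤ, (#{q ∈ quad C | rr q.1 + rr q.2.1 - rr q.2.2.1 - rr q.2.2.2 = v} : ℝ) ≤ T) →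
      (#{q ∈ quad C | (2 : ℤ) ^ m ∣
        zeta J ((3 - i) * m) (rr q.1) + zeta J ((3 - i) * m) (rr q.2.1)
          - zeta J ((3 - i) * m) (rr q.2.2.1) - zeta J ((3 - i) * m) (rr q.2.2.2)} : ℝ) ≤
        16 * 2 ^ (ε * m) * (R / 2 ^ m) * T

/-- TREE: (6.2) of the paper. -/
def TreeStatement : Prop :=
  ∀ (k : ℕ) (α : Fin k → ℝ), (∀ t, 0 ≤ α t ∧ α t ≤ 1) → ∀ (C : Finset (Fin k → Bool)) (j : ℕ)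
    (p : ℝ), 0 < p → (∀ w ∈ C, ones w = j ∧ p ≤ wt α w) → ∀ v : ℤ,
      (#{q ∈ quad C | (2 : ℤ) ^ k ∣ rr q.1 + rr q.2.1 - rr q.2.2.1 - rr q.2.2.2 - v} : ℝ) * p ^ 4 ≤
        ∏ t, (1 + (1 - 2 * α t) ^ 4) / 2

/-- RISE: (7.1) of the paper. -/
def RiseStatement : Prop :=
  ∀ (m : ℕ) (w : Fin m → Bool), ∃ n ≤ m, 2 ^ m ≤ 2 ^ n * 3 ^ suf w n ∧
    rr w ≤ m * (2 ^ n * 3 ^ suf w n)

/-- The combinatorial conclusion of section 7, for one class and one `κ` (here `g`). -/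
def ClassStatement : Prop :=
  ∀ (c : ℕ) (ε : ℝ), 0 < ε → ∃ m0 : ℕ, ∀ m ≥ m0, ∀ (n j' j'' : Fin 3 → ℕ) (j3 J0 J1 J2 : ℕ),
    (∀ i, n i ≤ m ∧ j' i ≤ n i ∧ j'' i ≤ m - n i ∧ 2 ^ m ≤ 2 ^ n i * 3 ^ j'' i) → j3 ≤ m →
    J0 = j' 0 + j'' 0 → J1 = J0 + (j' 1 + j'' 1) → J2 = J1 + (j' 2 + j'' 2) →
    2 ^ m ≤ 2 ^ c * 3 ^ J0 → 2 ^ (2 * m) ≤ 2 ^ c * 3 ^ J1 → 2 ^ (3 * m) ≤ 2 ^ c * 3 ^ J2 →
    2 ^ (4 * m) ≤ 2 ^ c * 3 ^ (J2 + j3) → ∀ g : ℤ,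
    (#{q : (Fin m → Bool) × (Fin m → Bool) × (Fin m → Bool) × (Fin m → Bool) |
        (pre q.1 (n 0) = j' 0 ∧ suf q.1 (n 0) = j'' 0 ∧ rr q.1 ≤ m * (2 ^ n 0 * 3 ^ j'' 0)) ∧
        (pre q.2.1 (n 1) = j' 1 ∧ suf q.2.1 (n 1) = j'' 1 ∧
          rr q.2.1 ≤ m * (2 ^ n 1 * 3 ^ j'' 1)) ∧
        (pre q.2.2.1 (n 2) = j' 2 ∧ suf q.2.2.1 (n 2) = j'' 2 ∧
          rr q.2.2.1 ≤ m * (2 ^ n 2 * 3 ^ j'' 2)) ∧ ones q.2.2.2 = j3 ∧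
        (2 : ℤ) ^ m ∣ 3 ^ (j3 + (J2 - J0)) * zeta J0 (3 * m) (rr q.1)
          + 3 ^ (j3 + (J2 - J1)) * zeta J1 (2 * m) (rr q.2.1)
          + 3 ^ j3 * zeta J2 m (rr q.2.2.1) + rr q.2.2.2 - g} : ℝ) ^ 12 ≤
      (16 * m * 2 ^ (ε * m)) ^ 9 * 2 ^ (4 * c) * 354 ^ (4 * m)

/-- MAIN -/
def MainStatement : Prop :=
  ∀ c : ℕ, ∃ C : ℝ, ∀ m : ℕ, ((S m c).ncard : ℝ) ≤ C * (2 : ℝ) ^ (0.941 * (3 * (m : ℝ)))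

/-- STOP: corollary (a). -/
def StopStatement : Prop :=
  ∃ C : ℝ, ∀ X : ℝ, 1 ≤ X →
    ({x : ℤ | |(x : ℝ)| ≤ X ∧ ∀ k : ℕ, (k : ℝ) ≤ 4 / 3 * Real.logb 2 X → |x| ≤ |T^[k] x|}.ncard : ℝ)
      ≤ C * X ^ (0.941 : ℝ)

/-- PER: corollary (b). -/
def PerStatement : Prop :=
  ∃ C : ℝ, ∀ X : ℝ, 1 ≤ X →
    ({x : ℤ | |(x : ℝ)| ≤ X ∧ x ∈ Function.periodicPts T}.ncard : ℝ) ≤ C * X ^ (0.941 : ℝ)

end Pool.Agent.Lib.MP_0a5adf_nt.EXP
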